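import Pool.Agent.MP_678834_nt.HL9.All

/-! Pairs `q`, `2 q - h`: the major arc model and the window inequality. -/

set_option autoImplicit false

noncomputable section

namespace Pool.Agent.MP_39a890_nt.SG

open MeasureTheory Finset Filter
open scoped ArithmeticFunction.vonMangoldt ArithmeticFunction.Moebius
open Pool.Agent.MP_3d0d30_nt.Six (E)
open Pool.Agent.MP_db1c88_nt Pool.Agent.MP_3d0d30_nt Pool.Agent.MP_678834_nt
open Pool.Agent.MP_678834_nt.HL9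

/-- the denominator of `2 / r` -/
def hf (r : ℕ) : ℕ := if 2 ∣ r then r / 2 else r

theorem ram_eq (r h : ℕ) : ram r h =
    ∑ b ∈ (range r).filter (fun b => Nat.Coprime b r), E (((h : ℤ) : ℝ) * b / r) :=
  sum_congr rfl fun b _ => by congr 1; push_cast; ring

theorem ram_neg {r : ℕ} (hr : 1 ≤ r) (h : ℕ) :
    ∑ b ∈ (range r).filter (fun b => Nat.Coprime b r), E (((-h : ℤ) : ℝ) * b / r) = ram r h := by
  rw [ram_eq, tools2.ram_formula _ hr, tools2.ram_formula _ hr]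
  simp only [dvd_neg]

theorem ram_two {r : ℕ} (hr : 1 ≤ r) (ho : ¬ 2 ∣ r) (h : ℕ) : ram r (2 * h) = ram r h := by
  rw [ram_eq, ram_eq, tools2.ram_formula _ hr, tools2.ram_formula _ hr]
  refine sum_congr rfl fun d hd => ?_
  have h1 : r / d ∣ r := Nat.div_dvd_of_dvd (Nat.dvd_of_mem_divisors hd)
  have h2 : (r / d).Coprime 2 :=
    ((Nat.prime_two.coprime_iff_not_dvd).2 fun h' => ho (h'.trans h1)).symm
  simp only [Int.natCast_dvd_natCast, h2.dvd_mul_left]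

theorem rho_two {s : ℕ} (ho : ¬ 2 ∣ s) : rho (2 * s) = -rho s := by
  have hc : Nat.Coprime 2 s := (Nat.prime_two.coprime_iff_not_dvd).2 ho
  rw [rho, rho, Nat.totient_mul hc, ArithmeticFunction.isMultiplicative_moebius.map_mul_of_coprime hc,
    ArithmeticFunction.moebius_apply_prime Nat.prime_two, Nat.totient_two]
  push_cast
  ring

theorem rho_four {s : ℕ} (he : 2 ∣ s) : rho (2 * s) = 0 := by
  have : ¬ Squarefree (2 * s) := fun h => by
    have := h 2 (mul_dvd_mul_left 2 he)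
    simp at this
  rw [rho, ArithmeticFunction.moebius_eq_zero_of_not_squarefree this]
  simp

theorem loc {r h : ℕ} (hr : 1 ≤ r) (hh : Odd h) :
    (rho r : ℂ) * rho (hf r) * ram r h = (rho r : ℂ) ^ 2 * ram r (2 * h) := by
  unfold hf
  split_ifs with h2
  · obtain ⟨s, rfl⟩ := h2
    have hs : 1 ≤ s := by omega
    rw [Nat.mul_div_cancel_left s two_pos]
    by_cases he : 2 ∣ s
    · rw [rho_four he]; simp
    · have hc : Nat.Coprime 2 s := (Nat.prime_two.coprime_iff_not_dvd).2 he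
      rw [Sng.ram_step Nat.prime_two hs hc, Sng.ram_step Nat.prime_two hs hc,
        if_neg hh.not_two_dvd_nat, if_pos (dvd_mul_right 2 h), Nat.mul_div_cancel_left h two_pos,
        ram_two hs he, rho_two he]
      push_cast
      ring
  · rw [ram_two hr h2]; ring

/-- the major arc model against the von Mangoldt function -/
theorem model (S : Finset ℕ) (Q h : ℕ) (hh : Odd h) (hS : ∀ n ∈ S, h ≤ 2 * n) (Y : ℂ) {W : ℝ}
    (hb : ∀ r ∈ Icc 1 Q, ∀ b : ℕ, b.Coprime r →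
      ‖∑ n ∈ S, (Λ n : ℂ) * E (b * n / r) - rho r * Y‖ ≤ W) :
    ‖∑ n ∈ S, (Λ n : ℂ) * lamS Q (2 * n - h) - sgm Q (2 * h) * Y‖ ≤ Q * W := by
  have key : ∑ n ∈ S, (Λ n : ℂ) * lamS Q (2 * n - h) - sgm Q (2 * h) * Y =
      ∑ r ∈ Icc 1 Q, (rho r : ℂ) * ∑ b ∈ (range r).filter (fun b => Nat.Coprime b r),
        E (((-h : ℤ) : ℝ) * b / r) *
          (∑ n ∈ S, (Λ n : ℂ) * E (2 * b * n / r) - rho (hf r) * Y) := by
    have k2 : sgm Q (2 * h) * Y = ∑ r ∈ Icc 1 Q, (rho r : ℂ) *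
        ∑ b ∈ (range r).filter (fun b => Nat.Coprime b r),
          E (((-h : ℤ) : ℝ) * b / r) * (rho (hf r) * Y) := by
      rw [sgm, sum_mul]
      refine sum_congr rfl fun r hr => ?_
      rw [← sum_mul, ram_neg (mem_Icc.1 hr).1, ← loc (mem_Icc.1 hr).1 hh]
      ring
    rw [k2]
    simp only [lamS, ram, mul_sum, mul_sub, sum_sub_distrib]
    congr 1
    rw [sum_comm]
    refine sum_congr rfl fun r _ => ?_
    rw [sum_comm]
    refine sum_congr rfl fun b _ => sum_congr rfl fun n hn => ?_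
    rw [show ((b : ℝ) * ((2 * n - h : ℕ) : ℝ) / r) = ((-h : ℤ) : ℝ) * b / r + 2 * b * n / r by
      rw [Nat.cast_sub (hS n hn)]; push_cast; ring, Six.E_add]
    ring
  rw [key]
  refine (norm_sum_le _ _).trans ?_
  have : ∀ r ∈ Icc 1 Q, ‖(rho r : ℂ) * ∑ b ∈ (range r).filter (fun b => Nat.Coprime b r),
      E (((-h : ℤ) : ℝ) * b / r) *
        (∑ n ∈ S, (Λ n : ℂ) * E (2 * b * n / r) - rho (hf r) * Y)‖ ≤ W := by
    intro r hr
    have hr1 : 1 ≤ r := (mem_Icc.1 hr).1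
    have hφ : (0 : ℝ) < Nat.totient r := by exact_mod_cast Nat.totient_pos.2 hr1
    have h1 : ‖∑ b ∈ (range r).filter (fun b => Nat.Coprime b r), E (((-h : ℤ) : ℝ) * b / r) *
        (∑ n ∈ S, (Λ n : ℂ) * E (2 * b * n / r) - rho (hf r) * Y)‖ ≤ Nat.totient r * W := by
      refine (norm_sum_le _ _).trans ?_
      rw [← MainOf.card_cop, ← nsmul_eq_mul]
      refine sum_le_card_nsmul _ _ _ fun b hb' => ?_
      rw [norm_mul, Six.norm_E, one_mul]
      have hc := (mem_filter.1 hb').2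
      unfold hf
      split_ifs with h2
      · obtain ⟨s, rfl⟩ := h2
        have hs : 1 ≤ s := by omega
        have hs' : (s : ℝ) ≠ 0 := by positivity
        rw [Nat.mul_div_cancel_left s two_pos]
        have := hb s (mem_Icc.2 ⟨hs, by have := (mem_Icc.1 hr).2; omega⟩) b
          (Nat.Coprime.coprime_mul_left_right hc)
        refine le_trans (le_of_eq ?_) this
        congr 2
        refine sum_congr rfl fun n _ => ?_
        congr 2
        push_cast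
        field_simp
      · have := hb r hr (2 * b)
          (Nat.Coprime.mul_left ((Nat.prime_two.coprime_iff_not_dvd).2 h2) hc)
        simpa using this
    rw [norm_mul, Complex.norm_real, Real.norm_eq_abs]
    calc _ ≤ 1 / (Nat.totient r : ℝ) * (Nat.totient r * W) :=
          mul_le_mul (abs_rho_le r) h1 (norm_nonneg _) (by positivity)
      _ = W := by field_simp
  refine (sum_le_card_nsmul _ _ _ this).trans ?_
  simp

/-- the window inequality for the form `2 q - h` -/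
theorem win2 : ∃ C : ℝ, ∀ (F g : ℕ → ℂ) (S R : Finset ℕ) (k H : ℕ) (M : ℝ), 1 ≤ H →
    (∀ β : ℝ, ∫ θ in (β - 1 / H)..(β + 1 / H), ‖∑ n ∈ R, g n * E (n * θ)‖ ^ 2 ≤ M) →
    (∀ n ∈ S, k + H + 1 ≤ 2 * n) → (∀ n ∈ S, ∀ h ∈ Ioc k (k + H), 2 * n - h ∈ R) →
    ∑ h ∈ Ioc k (k + H), ‖∑ n ∈ S, F n * g (2 * n - h)‖ ^ 2 ≤ C * H * M * ∑ n ∈ S, ‖F n‖ ^ 2 := by
  obtain ⟨C, hC⟩ := win
  refine ⟨C, fun F g S R k H M hH hM hS hR => ?_⟩
  set K := k + H + 1 with hK
  have inj : ∀ x ∈ S, ∀ y ∈ S, 2 * x - K = 2 * y - K → x = y := fun x hx y hy e => by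
    have := hS x hx
    have := hS y hy
    omega
  have back : ∀ n ∈ S, (2 * n - K + K) / 2 = n := fun n hn => by
    have := hS n hn
    omega
  have a := hC (fun m => F ((m + K) / 2)) g (S.image fun n => 2 * n - K) R 0 H M hH hM
    fun m hm h hh => by
      obtain ⟨n, hn, rfl⟩ := mem_image.1 hm
      have a1 := hS n hn
      obtain ⟨a2, a3⟩ := mem_Ioc.1 hh
      have := hR n hn (K - h) (mem_Ioc.2 ⟨by omega, by omega⟩)
      rwa [show 2 * n - (K - h) = 2 * n - K + h by omega] at this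
  have e : ∑ x ∈ S, ‖F ((2 * x - K + K) / 2)‖ ^ 2 = ∑ n ∈ S, ‖F n‖ ^ 2 :=
    sum_congr rfl fun n hn => by rw [back n hn]
  rw [sum_image inj, e] at a
  refine le_trans (le_of_eq ?_) a
  refine sum_bij' (fun h _ => K - h) (fun h _ => K - h) (fun h hh => ?_) (fun h hh => ?_)
    (fun h hh => ?_) (fun h hh => ?_) fun h hh => ?_
  · obtain ⟨a2, a3⟩ := mem_Ioc.1 hh
    exact mem_Ioc.2 ⟨by omega, by omega⟩
  · obtain ⟨a2, a3⟩ := mem_Ioc.1 hh
    exact mem_Ioc.2 ⟨by omega, by omega⟩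
  · obtain ⟨a2, a3⟩ := mem_Ioc.1 hh
    omega
  · obtain ⟨a2, a3⟩ := mem_Ioc.1 hh
    omega
  · obtain ⟨a2, a3⟩ := mem_Ioc.1 hh
    rw [sum_image inj]
    congr 2
    refine sum_congr rfl fun n hn => ?_
    have a1 := hS n hn
    rw [back n hn, show 2 * n - K + (K - h) = 2 * n - h by omega]

/-- the singular series on average over odd shifts -/
theorem sng2 : ∃ C : ℝ, ∀ Q H k : ℕ, 1 ≤ Q → 1 ≤ H → k + H ≤ H ^ 9 →
    ∑ h ∈ Ioc k (k + H), ‖(sing (2 * h) : ℂ) - sgm Q (2 * h)‖ ^ 2 ≤ C * H / Q := by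
  obtain ⟨C, hC⟩ := sng
  refine ⟨2 * C, fun Q H k hQ hH hk => ?_⟩
  have a := hC Q (2 * H) (2 * k) hQ (by omega) (by rw [mul_pow]; omega)
  have b : ∑ h ∈ Ioc k (k + H), ‖(sing (2 * h) : ℂ) - sgm Q (2 * h)‖ ^ 2 =
      ∑ d ∈ (Ioc k (k + H)).image (fun h => 2 * h), ‖(sing d : ℂ) - sgm Q d‖ ^ 2 :=
    (sum_image (f := fun d => ‖(sing d : ℂ) - sgm Q d‖ ^ 2) fun x _ y _ e =>
      Nat.eq_of_mul_eq_mul_left two_pos e).symm
  rw [b]
  refine (sum_le_sum_of_subset_of_nonneg (fun d hd => ?_) fun _ _ _ => by positivity).trans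
    (a.trans (le_of_eq (by push_cast; ring)))
  obtain ⟨h, hh, rfl⟩ := mem_image.1 hd
  obtain ⟨a2, a3⟩ := mem_Ioc.1 hh
  exact mem_Ioc.2 ⟨by omega, by omega⟩

open Pool.Agent.MP_db1c88_nt.z94 (wide) in
/-- the pair correlation with von Mangoldt weights, on average over odd shifts -/
theorem main2 (ε : ℝ) (hε : 0 < ε) (A : ℕ) : ∃ C X₀ : ℝ, ∀ X X' h₀ H : ℕ, X₀ ≤ X → X ≤ X' →
    X' ≤ 2 * X → (X : ℝ) ^ (1 / 9 + ε) ≤ H → h₀ + H ≤ X →
    ∑ h ∈ Ioc h₀ (h₀ + H), (if Odd h then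
      (∑ n ∈ Ioc X X', Λ n * Λ (2 * n - h) - sing (2 * h) * ((X' : ℝ) - X)) ^ 2 else 0) ≤
      C * H * X ^ 2 / Real.log X ^ A := by
  obtain ⟨C1, h1⟩ := win2
  obtain ⟨C3, h3⟩ := sng2
  set ε' := min ε (1 / 10) with hε'
  have e0 : 0 < ε' := lt_min hε (by norm_num)
  have e1 : ε' ≤ 1 / 10 := min_le_right _ _
  have e2 : ε' ≤ ε := min_le_left _ _
  obtain ⟨B₀, h2⟩ := arc ε' e0 e1 (A + 2)
  set B := max B₀ A with hB
  obtain ⟨C2, X2, h2⟩ := h2 B (le_max_left _ _)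
  obtain ⟨C4, X4, h4⟩ := swa_of PW.pw chr (A + B + 1) (B + 1)
  obtain ⟨X0, hX0⟩ := eventually_atTop.1 ((ev_log 2).and ((ev_rpow (δ := 11 / 90) (by norm_num) 2).and
    ((eventually_ge_atTop X2).and ((eventually_ge_atTop X4).and (eventually_ge_atTop (2 : ℝ))))))
  refine ⟨2 * (3 * (4 * |C1| * |C2| + C4 ^ 2 + |C3|)), X0, fun X X' h₀ H a1 a2 a3 a4 a5 => ?_⟩
  obtain ⟨b1, b2, b3, b4, b5⟩ := hX0 X a1
  set L := Real.log X with hL
  have hL1 : 1 ≤ L := by linarith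
  have hX1 : (1 : ℝ) ≤ X := by linarith
  have hX0' : (0 : ℝ) < X := by linarith
  set Q := ⌈L ^ B⌉₊ with hQ
  have hLB : 1 ≤ L ^ B := one_le_pow₀ hL1
  have q1 : L ^ B ≤ Q := Nat.le_ceil _
  have q2 : (Q : ℝ) ≤ L ^ (B + 1) := by
    have := (Nat.ceil_lt_add_one (a := L ^ B) (by positivity)).le
    rw [pow_succ]
    nlinarith
  have q3 : 1 ≤ Q := by exact_mod_cast hLB.trans q1
  have q4 : L ^ A ≤ Q := (pow_le_pow_right₀ hL1 (le_max_right _ _)).trans q1
  set H1 := ⌈(X : ℝ) ^ (1 / 9 + ε')⌉₊ with hH1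
  have r0 : 1 ≤ (X : ℝ) ^ (1 / 9 + ε') := Real.one_le_rpow hX1 (by positivity)
  have r1 : (X : ℝ) ^ (1 / 9 + ε') ≤ H1 := Nat.le_ceil _
  have r2 : H1 ≤ H :=
    Nat.ceil_le.2 ((Real.rpow_le_rpow_of_exponent_le hX1 (by linarith)).trans a4)
  have r3 : (H1 : ℝ) ≤ (X : ℝ) ^ (1 / 3 : ℝ) := by
    have s1 := (Nat.ceil_lt_add_one (a := (X : ℝ) ^ (1 / 9 + ε')) (by positivity)).le
    have s2 : (X : ℝ) ^ (1 / 9 + ε') ≤ (X : ℝ) ^ (19 / 90 : ℝ) :=
      Real.rpow_le_rpow_of_exponent_le hX1 (by linarith)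
    have s3 : (X : ℝ) ^ (1 / 3 : ℝ) = (X : ℝ) ^ (11 / 90 : ℝ) * (X : ℝ) ^ (19 / 90 : ℝ) := by
      rw [← Real.rpow_add hX0']; norm_num
    rw [s3]
    nlinarith
  have r4 : 1 ≤ H1 := by exact_mod_cast r0.trans r1
  have r5 : X ≤ H1 ^ 9 := by
    have s1 : (X : ℝ) ^ (1 / 9 : ℝ) ≤ H1 :=
      (Real.rpow_le_rpow_of_exponent_le hX1 (by linarith)).trans r1
    have s2 : ((X : ℝ) ^ (1 / 9 : ℝ)) ^ 9 ≤ (H1 : ℝ) ^ 9 := by gcongr
    rw [← Real.rpow_natCast, ← Real.rpow_mul hX0'.le] at s2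
    norm_num at s2
    exact_mod_cast s2
  have hLA : 0 < L ^ A := by positivity
  have hY : ‖(X' : ℂ) - X‖ ≤ X := by
    have s1 : (X : ℝ) ≤ X' := by exact_mod_cast a2
    have s2 : (X' : ℝ) ≤ 2 * X := by exact_mod_cast a3
    rw [show (X' : ℂ) - X = ((X' - X : ℝ) : ℂ) by push_cast; ring, Complex.norm_real,
      Real.norm_of_nonneg (by linarith)]
    linarith
  set g : ℕ → ℂ := fun n => ((Λ n : ℂ) - lamS Q n) * (w2 (Real.log n - Real.log X) : ℝ) with hg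
  have hblock : ∀ h1 : ℕ, h1 + H1 ≤ X →
      ∑ h ∈ Ioc h1 (h1 + H1), (if Odd h then
        (∑ n ∈ Ioc X X', Λ n * Λ (2 * n - h) - sing (2 * h) * ((X' : ℝ) - X)) ^ 2 else 0) ≤
        3 * (4 * |C1| * |C2| + C4 ^ 2 + |C3|) * X ^ 2 / L ^ A * H1 := by
    intro k hk
    have hmem : ∀ n ∈ Ioc X X', ∀ h ∈ Ioc k (k + H1),
        (X : ℝ) ≤ (2 * n - h : ℕ) ∧ ((2 * n - h : ℕ) : ℝ) ≤ 4 * X := by
      intro n hn h hh
      obtain ⟨s1, s2⟩ := mem_Ioc.1 hn
      obtain ⟨s3, s4⟩ := mem_Ioc.1 hh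
      exact ⟨by exact_mod_cast (by omega), by exact_mod_cast (by omega)⟩
    have pa := h1 (fun n => Λ n) g (Ioc X X') (wide X 4) k H1 (|C2| * X / L ^ (A + 2)) r4
      (fun β => (h2 X H1 β Q b3 r1 r3 q1 q2).trans (by gcongr; exact le_abs_self _))
      (fun n hn => by have := (mem_Ioc.1 hn).1; omega)
      (fun n hn h hh => (z94.mem_wide hX0'.le (by norm_num)).2
        ⟨by have := (mem_Ioc.1 hh).2; have := (mem_Ioc.1 hn).1; omega,
          by linarith [(hmem n hn h hh).2]⟩)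
    have pa' : ∑ h ∈ Ioc k (k + H1), ‖∑ n ∈ Ioc X X', (Λ n : ℂ) * g (2 * n - h)‖ ^ 2 ≤
        4 * |C1| * |C2| * X ^ 2 / L ^ A * H1 := by
      refine pa.trans ?_
      have s1 := MainOf.sum_sq_le (X := X) (X' := X') (by exact_mod_cast b5) a3
      calc _ ≤ |C1| * H1 * (|C2| * X / L ^ (A + 2)) * (4 * X * L ^ 2) := by
            refine mul_le_mul ?_ s1 (sum_nonneg fun _ _ => by positivity) (by positivity)
            gcongr
            exact le_abs_self _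
        _ = _ := by field_simp; ring
    have pb : ∀ h ∈ Ioc k (k + H1), Odd h → ‖∑ n ∈ Ioc X X', (Λ n : ℂ) * lamS Q (2 * n - h) -
        sgm Q (2 * h) * ((X' : ℂ) - X)‖ ^ 2 ≤ C4 ^ 2 * X ^ 2 / L ^ A := by
      intro h hh ho
      have s1 := model (Ioc X X') Q h ho
        (fun n hn => by have := (mem_Ioc.1 hh).2; have := (mem_Ioc.1 hn).1; omega)
        ((X' : ℂ) - X) (W := |C4| * X / L ^ (A + B + 1)) fun r hr b hb => by
          have s2 : (r : ℝ) ≤ Q := by exact_mod_cast (mem_Icc.1 hr).2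
          have s3 := h4 X X' r b b4 a2 a3 (mem_Icc.1 hr).1 (s2.trans q2) (by simpa using hb)
          refine le_trans (by simpa using s3) ?_
          gcongr
          exact le_abs_self _
      have s2 : Q * (|C4| * X / L ^ (A + B + 1)) ≤ |C4| * X / L ^ A := by
        calc _ ≤ L ^ (B + 1) * (|C4| * X / L ^ (A + B + 1)) := by gcongr
          _ = _ := by field_simp; ring
      calc _ ≤ (|C4| * X / L ^ A) ^ 2 := by gcongr; exact s1.trans s2
        _ = C4 ^ 2 * X ^ 2 / L ^ A / L ^ A := by rw [div_pow, mul_pow, sq_abs]; field_simp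
        _ ≤ _ := div_le_self (by positivity) (one_le_pow₀ hL1)
    have pc : ∑ h ∈ Ioc k (k + H1), ‖(sgm Q (2 * h) - sing (2 * h)) * ((X' : ℂ) - X)‖ ^ 2 ≤
        |C3| * X ^ 2 / L ^ A * H1 := by
      have s1 := h3 Q H1 k q3 r4 (hk.trans r5)
      calc _ ≤ ∑ h ∈ Ioc k (k + H1), ‖(sing (2 * h) : ℂ) - sgm Q (2 * h)‖ ^ 2 * X ^ 2 := by
            refine sum_le_sum fun h _ => ?_
            rw [norm_mul, mul_pow, norm_sub_rev]
            gcongr
        _ ≤ |C3| * H1 / L ^ A * X ^ 2 := by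
            rw [← sum_mul]
            gcongr
            refine s1.trans ?_
            calc C3 * H1 / Q ≤ |C3| * H1 / Q := by gcongr; exact le_abs_self _
              _ ≤ _ := by gcongr
        _ = _ := by ring
    have pd : ∀ h ∈ Ioc k (k + H1), (if Odd h then
        (∑ n ∈ Ioc X X', Λ n * Λ (2 * n - h) - sing (2 * h) * ((X' : ℝ) - X)) ^ 2 else 0) ≤
          3 * (‖∑ n ∈ Ioc X X', (Λ n : ℂ) * g (2 * n - h)‖ ^ 2 + C4 ^ 2 * X ^ 2 / L ^ A +
            ‖(sgm Q (2 * h) - sing (2 * h)) * ((X' : ℂ) - X)‖ ^ 2) := by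
      intro h hh
      split_ifs with ho
      swap
      · positivity
      have s1 : ((∑ n ∈ Ioc X X', Λ n * Λ (2 * n - h) - sing (2 * h) * ((X' : ℝ) - X) : ℝ) : ℂ) =
          ∑ n ∈ Ioc X X', (Λ n : ℂ) * g (2 * n - h) +
            (∑ n ∈ Ioc X X', (Λ n : ℂ) * lamS Q (2 * n - h) - sgm Q (2 * h) * ((X' : ℂ) - X)) +
            (sgm Q (2 * h) - sing (2 * h)) * ((X' : ℂ) - X) := by
        have s2 : ∑ n ∈ Ioc X X', (Λ n : ℂ) * g (2 * n - h) =
            ∑ n ∈ Ioc X X', (Λ n : ℂ) * Λ (2 * n - h) -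
              ∑ n ∈ Ioc X X', (Λ n : ℂ) * lamS Q (2 * n - h) := by
          rw [← sum_sub_distrib]
          refine sum_congr rfl fun n hn => ?_
          have s3 := w1_eq_one hX0' (hmem n hn h hh).1 (hmem n hn h hh).2
          simp only [hg, w2]
          rw [s3]
          push_cast
          ring
        rw [s2]
        push_cast
        ring
      rw [← sq_abs, ← Real.norm_eq_abs, ← Complex.norm_real, s1]
      refine (MainOf.sq_three _ _ _).trans ?_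
      gcongr
      exact pb h hh ho
    refine (sum_le_sum pd).trans ?_
    rw [← mul_sum, sum_add_distrib, sum_add_distrib, sum_const, Nat.card_Ioc, nsmul_eq_mul,
      Nat.add_sub_cancel_left]
    calc _ ≤ 3 * (4 * |C1| * |C2| * X ^ 2 / L ^ A * H1 + H1 * (C4 ^ 2 * X ^ 2 / L ^ A) +
          |C3| * X ^ 2 / L ^ A * H1) := by gcongr
      _ = _ := by ring
  refine (MainOf.cover _ (fun h => by split_ifs <;> positivity) X H1 r4 hblock h₀ H r2 a5).trans ?_
  have s1 : (H1 : ℝ) ≤ H := by exact_mod_cast r2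
  calc _ ≤ 3 * (4 * |C1| * |C2| + C4 ^ 2 + |C3|) * X ^ 2 / L ^ A * (H + H) := by gcongr
    _ = _ := by ring

end Pool.Agent.MP_39a890_nt.SG

end
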