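import Pool.Agent.MP_39a890_nt.h21.SG1

/-! Pairs `q`, `2 q - h`: from von Mangoldt weights to the counting function. -/

set_option autoImplicit false

noncomputable section

namespace Pool.Agent.MP_39a890_nt.SG

open Finset Filter
open scoped ArithmeticFunction.vonMangoldt
open Pool.Agent.MP_678834_nt Pool.Agent.MP_678834_nt.HL9
open Pool.Agent.MP_678834_nt.HL9.Final (np np_nonneg)

/-- indicator of a prime pair -/
def ind (h n : ℕ) : ℝ := if n.Prime ∧ (2 * n - h).Prime then 1 else 0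

theorem ind_nonneg (h n : ℕ) : 0 ≤ ind h n := by unfold ind; split_ifs <;> norm_num

theorem sum_ind_nonneg (h a b : ℕ) : 0 ≤ ∑ n ∈ Ioc a b, ind h n :=
  sum_nonneg fun n _ => ind_nonneg h n

theorem sum_ind_le (h a b c : ℕ) (hc : b - a ≤ c) : ∑ n ∈ Ioc a b, ind h n ≤ c := by
  have : ∀ n ∈ Ioc a b, ind h n ≤ 1 := fun n _ => by unfold ind; split_ifs <;> norm_num
  refine (sum_le_sum this).trans ?_
  rw [sum_const, Nat.card_Ioc, nsmul_eq_mul, mul_one]
  exact_mod_cast hc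

theorem sum_np_le (S : Finset ℕ) (f : ℕ → ℕ) (z : ℕ) (hz : 1 ≤ z)
    (hi : ∀ x ∈ S, ∀ y ∈ S, f x = f y → x = y) (h : ∀ n ∈ S, f n ∈ Ioc 0 z) :
    ∑ n ∈ S, np (f n) ≤ 2 * Real.sqrt z * Real.log z := by
  have h2 : S.image f ⊆ Ioc 0 z := by
    intro m hm
    obtain ⟨n, hn, rfl⟩ := mem_image.1 hm
    exact h n hn
  have h3 := Final.sum_np_le 0 z 0 z hz (by omega)
  rw [← sum_image (f := np) hi]
  exact (sum_le_sum_of_subset_of_nonneg h2 fun m _ _ => np_nonneg m).trans h3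

theorem cnt_eq {N h : ℕ} (hN : 3 ≤ N) (hh : Odd h) :
    (((Icc N (2 * N)).filter fun p : ℕ => p.Prime ∧ ((p + h) / 2).Prime).card : ℝ) =
      ∑ n ∈ Ioc ((N + h - 1) / 2) (N + h / 2), ind h n := by
  unfold ind
  rw [sum_boole]
  congr 1
  obtain ⟨k, rfl⟩ := hh
  refine card_bij (fun p _ => (p + (2 * k + 1)) / 2) (fun p hp => ?_) (fun p hp q hq e => ?_)
    (fun n hn => ?_)
  · simp only [mem_filter, mem_Icc, mem_Ioc] at hp ⊢
    obtain ⟨⟨a1, a2⟩, a3, a4⟩ := hp
    have a5 := a3.eq_two_or_odd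
    rw [show 2 * ((p + (2 * k + 1)) / 2) - (2 * k + 1) = p by omega]
    exact ⟨⟨by omega, by omega⟩, a4, a3⟩
  · simp only [mem_filter, mem_Icc] at hp hq
    have a5 := hp.2.1.eq_two_or_odd
    have a6 := hq.2.1.eq_two_or_odd
    omega
  · simp only [mem_filter, mem_Ioc] at hn
    obtain ⟨⟨a1, a2⟩, a3, a4⟩ := hn
    have e : (2 * n - (2 * k + 1) + (2 * k + 1)) / 2 = n := by omega
    refine ⟨2 * n - (2 * k + 1), ?_, e⟩
    simp only [mem_filter, mem_Icc, e]
    exact ⟨⟨by omega, by omega⟩, a4, a3⟩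

theorem cnt_close {N h : ℕ} (hN : 3 ≤ N) (h1 : 1 ≤ h) (h2 : h ≤ N) :
    |∑ n ∈ Ioc ((N + h - 1) / 2) (N + h / 2), ind h n - ∑ n ∈ Ioc ((N + 1) / 2) N, ind h n| ≤
      h + 1 := by
  have e1 := sum_Ioc_consecutive (ind h) (show (N + 1) / 2 - 1 ≤ (N + h - 1) / 2 by omega)
    (show (N + h - 1) / 2 ≤ N + h / 2 by omega)
  have e2 := sum_Ioc_consecutive (ind h) (show (N + 1) / 2 - 1 ≤ (N + 1) / 2 by omega)
    (show (N + 1) / 2 ≤ N by omega)
  have e3 := sum_Ioc_consecutive (ind h) (show (N + 1) / 2 - 1 ≤ N by omega)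
    (show N ≤ N + h / 2 by omega)
  have a1 := sum_ind_le h ((N + 1) / 2 - 1) ((N + h - 1) / 2) (h + 1) (by omega)
  have a2 := sum_ind_le h ((N + 1) / 2 - 1) ((N + 1) / 2) 1 (by omega)
  have a3 := sum_ind_le h N (N + h / 2) h (by omega)
  have b1 := sum_ind_nonneg h ((N + 1) / 2 - 1) ((N + h - 1) / 2)
  have b2 := sum_ind_nonneg h ((N + 1) / 2 - 1) ((N + 1) / 2)
  have b3 := sum_ind_nonneg h N (N + h / 2)
  push_cast at a1 a2
  rw [abs_le]
  constructor <;> linarith

theorem log_near {N y : ℝ} (hN : 0 < N) (h1 : N ≤ 2 * y) (h2 : y ≤ 2 * N) :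
    |Real.log N - Real.log y| ≤ 1 := by
  have hy : 0 < y := by linarith
  have a1 := Real.log_le_log hN h1
  have a2 := Real.log_le_log hy h2
  rw [Real.log_mul two_ne_zero hy.ne'] at a1
  rw [Real.log_mul two_ne_zero hN.ne'] at a2
  have := Real.log_two_lt_d9
  rw [abs_le]
  constructor <;> linarith

theorem point {N n h : ℕ} (hL : 1 ≤ Real.log N) (h1 : N ≤ 2 * n) (h2 : n ≤ N)
    (h3 : N ≤ 2 * (2 * n - h)) :
    |Real.log N ^ 2 * ind h n - Λ n * Λ (2 * n - h)| ≤
      2 * Real.log N * ind h n + 2 * Real.log N * (np n + np (2 * n - h)) := by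
  set m := 2 * n - h with hm
  set L := Real.log N
  have hN : 0 < N := by
    rcases Nat.eq_zero_or_pos N with h | h
    · subst h; simp [L] at hL; linarith
    · exact h
  have hN' : (0 : ℝ) < N := by exact_mod_cast hN
  have b1 := log_near (y := n) hN' (by exact_mod_cast h1) (by exact_mod_cast (by omega))
  have b2 := log_near (y := m) hN' (by exact_mod_cast h3) (by exact_mod_cast (by omega))
  have b3 : Real.log n ≤ L :=
    Real.log_le_log (by exact_mod_cast (by omega)) (by exact_mod_cast h2)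
  have b4 : 0 ≤ Real.log n := Real.log_natCast_nonneg n
  have p1 := np_nonneg n
  have p2 := np_nonneg m
  have m1 : 0 ≤ Λ n := ArithmeticFunction.vonMangoldt_nonneg
  have m2 : 0 ≤ Λ m := ArithmeticFunction.vonMangoldt_nonneg
  have m3 : Λ n ≤ 2 * L := ArithmeticFunction.vonMangoldt_le_log.trans (by linarith)
  have m4 : Λ m ≤ 2 * L :=
    ArithmeticFunction.vonMangoldt_le_log.trans (by linarith [(abs_le.1 b2).1])
  have l0 : 0 ≤ 2 * L := by linarith
  by_cases hp : n.Prime ∧ m.Prime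
  · rw [ind, if_pos hp, ArithmeticFunction.vonMangoldt_apply_prime hp.1,
      ArithmeticFunction.vonMangoldt_apply_prime hp.2,
      show L ^ 2 * 1 - Real.log n * Real.log m =
        (L - Real.log n) * L + Real.log n * (L - Real.log m) by ring]
    refine ((abs_add_le _ _).trans ?_).trans (le_add_of_nonneg_right (by positivity))
    rw [abs_mul, abs_mul, abs_of_nonneg b4, abs_of_nonneg (show 0 ≤ L by linarith)]
    calc _ ≤ 1 * L + L * 1 := by gcongr
      _ = _ := by ring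
  · rw [ind, if_neg hp, mul_zero, mul_zero, zero_add, zero_sub, abs_neg,
      abs_of_nonneg (by positivity)]
    rcases not_and_or.1 hp with h | h
    · have : np n = Λ n := if_neg h
      rw [this]
      linarith [mul_le_mul_of_nonneg_left m4 m1, mul_nonneg l0 p2]
    · have : np m = Λ m := if_neg h
      rw [this]
      linarith [mul_le_mul_of_nonneg_right m3 m2, mul_nonneg l0 p1]

theorem weights {N h : ℕ} (hN : 3 ≤ N) (hL : 1 ≤ Real.log N) (h2 : 2 * h ≤ N) :
    |Real.log N ^ 2 * ∑ n ∈ Ioc ((N + 1) / 2) N, ind h n -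
      ∑ n ∈ Ioc ((N + 1) / 2) N, Λ n * Λ (2 * n - h)| ≤
      2 * Real.log N * ∑ n ∈ Ioc ((N + 1) / 2) N, ind h n +
        32 * Real.sqrt N * Real.log N ^ 2 := by
  have hN' : (0 : ℝ) < N := by exact_mod_cast (by omega)
  rw [mul_sum, ← sum_sub_distrib]
  refine (abs_sum_le_sum_abs _ _).trans ((sum_le_sum fun n hn => point hL
    (by have := mem_Ioc.1 hn; omega) (mem_Ioc.1 hn).2 (by have := mem_Ioc.1 hn; omega)).trans ?_)
  rw [sum_add_distrib, ← mul_sum, ← mul_sum, sum_add_distrib, add_le_add_iff_left]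
  have s1 := sum_np_le (Ioc ((N + 1) / 2) N) (fun n => n) (2 * N) (by omega) (fun _ _ _ _ e => e)
    fun n hn => by have := mem_Ioc.1 hn; exact mem_Ioc.2 ⟨by omega, by omega⟩
  have s2 := sum_np_le (Ioc ((N + 1) / 2) N) (fun n => 2 * n - h) (2 * N) (by omega)
    (fun x hx y hy e => by have := mem_Ioc.1 hx; have := mem_Ioc.1 hy; omega)
    fun n hn => by have := mem_Ioc.1 hn; exact mem_Ioc.2 ⟨by omega, by omega⟩
  have a1 : Real.sqrt (2 * N : ℕ) ≤ 2 * Real.sqrt N := by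
    rw [Real.sqrt_le_iff, mul_pow, Real.sq_sqrt hN'.le]
    push_cast
    exact ⟨by positivity, by linarith⟩
  have a2 : Real.log (2 * N : ℕ) ≤ 2 * Real.log N := by
    push_cast
    rw [Real.log_mul two_ne_zero hN'.ne']
    linarith [Real.log_two_lt_d9]
  have a3 : 2 * Real.sqrt (2 * N : ℕ) * Real.log (2 * N : ℕ) ≤
      2 * (2 * Real.sqrt N) * (2 * Real.log N) :=
    mul_le_mul (by linarith) a2 (Real.log_natCast_nonneg _) (by positivity)
  calc _ ≤ 2 * Real.log N * (2 * (2 * Real.sqrt N) * (2 * Real.log N) +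
        2 * (2 * Real.sqrt N) * (2 * Real.log N)) :=
        mul_le_mul_of_nonneg_left (by linarith) (by linarith)
    _ = _ := by ring

theorem scal {Y M K L : ℝ} (hM : 0 < M) (hK : 0 ≤ K) (hL : 4 ≤ L) (hY : 0 ≤ Y)
    (h : |Y - M| ≤ 2 / L * Y + K * M / L) : |Y / M - 1| ≤ (4 + 5 * K) / L := by
  have hL0 : 0 < L := by linarith
  have a1 : 2 / L * Y ≤ 1 / 2 * Y :=
    mul_le_mul_of_nonneg_right (by rw [div_le_iff₀ hL0]; linarith) hY
  have a2 : K * M / L ≤ K * M := div_le_self (by positivity) (by linarith)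
  have a3 : Y ≤ 2 * (1 + K) * M := by linarith [(abs_le.1 h).2]
  rw [show Y / M - 1 = (Y - M) / M by field_simp, abs_div, abs_of_pos hM, div_le_iff₀ hM]
  refine h.trans ?_
  calc _ ≤ 2 / L * (2 * (1 + K) * M) + K * M / L := by gcongr
    _ = _ := by field_simp; ring

theorem final (ε : ℝ) (hε : 0 < ε) (A : ℕ) : ∃ C N₀ : ℝ, ∀ N h₀ H : ℕ, N₀ ≤ N →
    (N : ℝ) ^ (1 / 9 + ε) ≤ H → ((h₀ + H : ℕ) : ℝ) ≤ N / Real.log N ^ 3 →
    ∃ Ex : Finset ℕ, (Ex.card : ℝ) ≤ C * H / Real.log N ^ A ∧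
      ∀ h ∈ Ioc h₀ (h₀ + H), Odd h → h ∉ Ex →
        |(((Icc N (2 * N)).filter fun p : ℕ => p.Prime ∧ ((p + h) / 2).Prime).card : ℝ) *
          Real.log N ^ 2 / (sing (2 * h) * N / 2) - 1| ≤ C / Real.log N ∧
        ∃ p : ℕ, p.Prime ∧ N ≤ p ∧ p ≤ 2 * N ∧ ((p + h) / 2).Prime := by
  obtain ⟨C, X₀, hC⟩ := main2 ε hε (A + 2)
  obtain ⟨c, hc, hs⟩ := Tp.sing_lower
  have half : (0 : ℝ) < 1 / 2 := by norm_num
  obtain ⟨K, hK⟩ : ∃ K : ℝ, K = 16 / c + 1 := ⟨_, rfl⟩
  have K0 : 0 ≤ K := by rw [hK]; positivity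
  obtain ⟨N₀, hN₀⟩ := eventually_atTop.1 ((ev_log (5 + 5 * K)).and ((ev_log_pow half 3 32).and
    ((eventually_ge_atTop (2 * X₀)).and (eventually_ge_atTop (4 : ℝ)))))
  refine ⟨|C| * 2 ^ (A + 2) + (4 + 5 * K), N₀, fun N h₀ H hN hH hD => ?_⟩
  obtain ⟨l1, l2, l3, l4⟩ := hN₀ N hN
  rw [← Real.sqrt_eq_rpow] at l2
  set L := Real.log N with hL
  have N0 : (0 : ℝ) < N := by linarith
  have N4 : 4 ≤ N := by exact_mod_cast l4
  have L4 : 4 ≤ L := by linarith
  have L0 : 0 < L := by linarith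
  have L3 : 2 ≤ L ^ 3 := le_trans (by norm_num) (pow_le_pow_left₀ (by norm_num) L4 3)
  have rr := Real.mul_self_sqrt N0.le
  have r0 : 0 < Real.sqrt N := Real.sqrt_pos.2 N0
  have r1 : 1 ≤ Real.sqrt N := by linarith
  have D1 : (1 : ℝ) ≤ N / L ^ 3 := by
    rw [le_div_iff₀ (by positivity)]
    linarith [mul_le_mul_of_nonneg_left r1 r0.le]
  have D2 : 2 * (h₀ + H) ≤ N := by
    have : ((h₀ + H : ℕ) : ℝ) ≤ N / 2 := hD.trans (by gcongr)
    have : ((2 * (h₀ + H) : ℕ) : ℝ) ≤ N := by push_cast at this ⊢; linarith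
    exact_mod_cast this
  set X := (N + 1) / 2 with hX
  have X1 : (N : ℝ) ≤ 2 * X := by exact_mod_cast (by omega)
  have X2 : (2 * X : ℝ) ≤ N + 1 := by exact_mod_cast (by omega)
  have X3 : (X : ℝ) ≤ N := by linarith
  have X4 : L / 2 ≤ Real.log X := by
    have a1 : Real.sqrt N ≤ X := by
      have : 2 ≤ Real.sqrt N := by linarith
      linarith [mul_le_mul_of_nonneg_left this r0.le]
    have a2 := Real.log_le_log r0 a1
    rwa [Real.log_sqrt N0.le] at a2
  have hm := hC X N h₀ H (by linarith) (by omega) (by omega)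
    ((Real.rpow_le_rpow (Nat.cast_nonneg _) X3 (by linarith)).trans hH) (by omega)
  set e : ℕ → ℝ := fun h => ∑ n ∈ Ioc X N, Λ n * Λ (2 * n - h) - sing (2 * h) * ((N : ℝ) - X)
    with he
  refine ⟨(Ioc h₀ (h₀ + H)).filter fun h => Odd h ∧ N / L < |e h|, ?_, fun h hh ho hn => ?_⟩
  · have k := card_nsmul_le_sum ((Ioc h₀ (h₀ + H)).filter fun h => Odd h ∧ N / L < |e h|)
      (fun h => if Odd h then e h ^ 2 else 0) ((N / L) ^ 2) fun d hd => by
        rw [if_pos (mem_filter.1 hd).2.1, ← sq_abs (e d)]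
        exact pow_le_pow_left₀ (by positivity) (mem_filter.1 hd).2.2.le 2
    have k2 := (k.trans (sum_le_sum_of_subset_of_nonneg (filter_subset _ _)
      fun _ _ _ => by split_ifs <;> positivity)).trans hm
    have k3 : C * H * (X : ℝ) ^ 2 / Real.log X ^ (A + 2) ≤ |C| * H * (N : ℝ) ^ 2 / (L / 2) ^ (A + 2) := by
      have := le_abs_self C
      gcongr
    replace k2 := k2.trans k3
    rw [nsmul_eq_mul, ← le_div_iff₀ (by positivity)] at k2
    refine k2.trans (le_trans (le_of_eq (by rw [div_pow L]; field_simp; ring))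
      (show |C| * 2 ^ (A + 2) * H / L ^ A ≤ _ by
        gcongr; exact le_add_of_nonneg_right (by positivity)))
  · obtain ⟨h1, h2⟩ := mem_Ioc.1 hh
    have k : |e h| ≤ N / L := not_lt.1 fun h' => hn (mem_filter.2 ⟨hh, ho, h'⟩)
    have s1 := hs (2 * h) (by omega) (even_two_mul h)
    have s0 : 0 < sing (2 * h) := hc.trans_le s1
    have c1 := cnt_close (N := N) (h := h) (by omega) (by omega) (by omega)
    have c2 := weights (N := N) (h := h) (by omega) (by linarith) (by omega)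
    have c0 := cnt_eq (N := N) (by omega) ho
    rw [← c0, ← hX] at c1
    rw [← hX, ← hL] at c2
    simp only [he] at k
    set cnt : ℝ := (((Icc N (2 * N)).filter fun p : ℕ => p.Prime ∧ ((p + h) / 2).Prime).card : ℝ)
      with hcnt
    set cq := ∑ n ∈ Ioc X N, ind h n
    set T := ∑ n ∈ Ioc X N, Λ n * Λ (2 * n - h)
    set s := sing (2 * h)
    have c3 : |cnt - cq| ≤ 2 * (N / L ^ 3) := by
      have : (h : ℝ) ≤ (h₀ + H : ℕ) := by exact_mod_cast h2
      linarith
    have cn0 : 0 ≤ cnt := Nat.cast_nonneg _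
    have t1 : |L ^ 2 * cnt - L ^ 2 * cq| ≤ 2 * (N / L) := by
      rw [← mul_sub, abs_mul, abs_of_pos (by positivity : 0 < L ^ 2)]
      calc _ ≤ L ^ 2 * (2 * (N / L ^ 3)) := by gcongr
        _ = _ := by field_simp
    have t2 : 2 * L * cq ≤ 2 / L * (cnt * L ^ 2) + 4 * (N / L) := by
      have a1 : cq ≤ cnt + 2 * (N / L ^ 3) := by linarith [(abs_le.1 c3).1]
      have a2 : (N : ℝ) / L / L ≤ N / L := div_le_self (by positivity) (by linarith)
      calc _ ≤ 2 * L * (cnt + 2 * (N / L ^ 3)) := by gcongr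
        _ = 2 / L * (cnt * L ^ 2) + 4 * (N / L / L) := by field_simp; ring
        _ ≤ _ := by linarith
    have t3 : 32 * Real.sqrt N * L ^ 2 ≤ N / L := by
      rw [le_div_iff₀ L0]
      calc _ = 32 * L ^ 3 * Real.sqrt N := by ring
        _ ≤ Real.sqrt N * Real.sqrt N := by gcongr
        _ = _ := rr
    have t4 : |s * ((N : ℝ) - X) - s * N / 2| ≤ s * N / 2 / L := by
      have a1 : L ≤ N := by linarith [Real.log_le_sub_one_of_pos N0]
      rw [show s * ((N : ℝ) - X) - s * N / 2 = s * (N / 2 - X) by ring, abs_mul, abs_of_pos s0]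
      calc _ ≤ s * (1 / 2) := by
            gcongr
            rw [abs_le]
            constructor <;> linarith
        _ = s * L / 2 / L := by field_simp
        _ ≤ _ := by gcongr
    have t5 : 8 * (N / L) ≤ 16 / c * (s * N / 2) / L := by
      calc _ = 16 / c * (c * N / 2) / L := by field_simp; ring
        _ ≤ _ := by gcongr
    have key : |cnt * L ^ 2 / (s * N / 2) - 1| ≤ (4 + 5 * K) / L := by
      refine scal (by positivity) K0 L4 (by positivity) ?_
      have a1 := abs_le.1 t1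
      have a2 := abs_le.1 c2
      have a3 := abs_le.1 k
      have a4 := abs_le.1 t4
      have a5 : K * (s * N / 2) / L = 16 / c * (s * N / 2) / L + s * N / 2 / L := by
        rw [hK]; ring
      rw [abs_le, a5]
      constructor <;> linarith [a1.1, a1.2, a2.1, a2.2, a3.1, a3.2, a4.1, a4.2]
    refine ⟨key.trans (div_le_div_of_nonneg_right (le_add_of_nonneg_left (by positivity)) L0.le), ?_⟩
    by_contra hne
    have : cnt = 0 := by
      rw [hcnt, Nat.cast_eq_zero, card_eq_zero, filter_eq_empty_iff]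
      exact fun p hp hq => hne ⟨p, hq.1, (mem_Icc.1 hp).1, (mem_Icc.1 hp).2, hq.2⟩
    rw [this, le_div_iff₀ L0] at key
    norm_num at key
    linarith

end Pool.Agent.MP_39a890_nt.SG

end
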